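import Pool.Agent.H7.GT.Stmts

/-!
# Board `gt7`, row DML (helper93): cliques which meet `Z`
-/

set_option autoImplicit false

open Finset

namespace Pool.GT7

open Pool.Agent.H23.KT Pool.Agent.H46.KW Pool.KQ

private lemma dml_inj {V : Type} [DecidableEq V] (B : Finset V) {K K' : Finset V}
    (h1 : K ∩ B = K' ∩ B) (h2 : K \ B = K' \ B) : K = K' := by
  rw [← sdiff_union_inter K B, ← sdiff_union_inter K' B, h1, h2]

theorem DML_thm : DMLStmt := by
  classical
  intro V _ G X Z p _
  set S : Finset (Finset V) := clq G (X ∪ Z) (p + 3) with hS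
  have hsub : ∀ K ∈ S, K \ Z ⊆ X := by
    intro K hK x hx
    rw [mem_sdiff] at hx
    have h1 := ((mem_clq G).1 hK).1 hx.1
    rw [mem_union] at h1
    exact h1.resolve_right hx.2
  have hcard : ∀ K ∈ S, (K \ Z).card + (K ∩ Z).card = p + 3 := by
    intro K hK
    rw [← ((mem_clq G).1 hK).2.1]
    exact card_sdiff_add_card_inter K Z
  have h1 : (S.filter (fun K => (K ∩ Z).card = 1)).card ≤
      ∑ z ∈ Z, kc G (nb G X z) (p + 2) := by
    have hU : S.filter (fun K => (K ∩ Z).card = 1) ⊆
        Z.biUnion (fun z => S.filter (fun K => K ∩ Z = {z})) := by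
      intro K hK
      rw [mem_filter] at hK
      obtain ⟨z, hz⟩ := card_eq_one.1 hK.2
      rw [mem_biUnion]
      refine ⟨z, ?_, ?_⟩
      · have : z ∈ K ∩ Z := by rw [hz]; exact mem_singleton_self z
        exact (mem_inter.1 this).2
      · rw [mem_filter]
        exact ⟨hK.1, hz⟩
    refine (card_le_card hU).trans (card_biUnion_le.trans ?_)
    refine sum_le_sum ?_
    intro z _
    apply card_le_kc G (z := z) (S := nb G X z) (j := p + 2)
    intro T hT
    rw [mem_filter] at hT
    have hz : z ∈ T ∩ Z := by rw [hT.2]; exact mem_singleton_self z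
    have hzT : z ∈ T := (mem_inter.1 hz).1
    have hcl := (mem_clq G).1 hT.1
    refine ⟨hzT, ?_, hcl.2.1, hcl.2.2⟩
    intro y hy
    rw [mem_erase] at hy
    rw [mem_nb]
    refine ⟨?_, ?_⟩
    · have h3 := hcl.1 hy.2
      rw [mem_union] at h3
      refine h3.resolve_right ?_
      intro hyZ
      have : y ∈ T ∩ Z := mem_inter.2 ⟨hy.2, hyZ⟩
      rw [hT.2, mem_singleton] at this
      exact hy.1 this
    · exact hcl.2.2 (mem_coe.2 hzT) (mem_coe.2 hy.2) (fun h => hy.1 h.symm)
  have h2 : (S.filter (fun K => 2 ≤ (K ∩ Z).card)).card ≤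
      (if Z.card ≤ 1 then 0 else 2 ^ Z.card * (X.card + 1) ^ (p + 1)) := by
    split_ifs with hB
    · rw [Nat.le_zero, card_eq_zero, filter_eq_empty_iff]
      intro K _
      have : (K ∩ Z).card ≤ Z.card := card_le_card inter_subset_right
      omega
    · have hmaps : ∀ K ∈ S.filter (fun K => 2 ≤ (K ∩ Z).card), K ∩ Z ∈ Z.powerset := by
        intro K _
        exact mem_powerset.2 inter_subset_right
      rw [card_eq_sum_card_fiberwise hmaps, ← card_powerset, ← smul_eq_mul, ← sum_const]
      refine sum_le_sum ?_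
      intro T _
      by_cases hT : 2 ≤ T.card ∧ T.card ≤ p + 3
      · have h3 : ((S.filter (fun K => 2 ≤ (K ∩ Z).card)).filter (fun K => K ∩ Z = T)).card ≤
            (X.powersetCard (p + 3 - T.card)).card := by
          refine card_le_card_of_injOn (fun K => K \ Z) ?_ ?_
          · intro K hK
            rw [mem_coe, mem_filter, mem_filter] at hK
            rw [mem_coe, mem_powersetCard]
            have h4 := hcard K hK.1.1
            rw [hK.2] at h4
            refine ⟨hsub K hK.1.1, ?_⟩
            show (K \ Z).card = p + 3 - T.card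
            omega
          · intro K hK K' hK' h
            rw [mem_coe, mem_filter] at hK hK'
            exact dml_inj Z (hK.2.trans hK'.2.symm) h
        refine h3.trans ?_
        rw [card_powersetCard]
        calc X.card.choose (p + 3 - T.card) ≤ X.card ^ (p + 3 - T.card) :=
              Nat.choose_le_pow _ _
          _ ≤ (X.card + 1) ^ (p + 3 - T.card) := Nat.pow_le_pow_left (Nat.le_succ _) _
          _ ≤ (X.card + 1) ^ (p + 1) := Nat.pow_le_pow_right (Nat.succ_pos _) (by omega)
      · have h3 : (S.filter (fun K => 2 ≤ (K ∩ Z).card)).filter (fun K => K ∩ Z = T) = ∅ := by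
          rw [filter_eq_empty_iff]
          intro K hK hKT
          rw [mem_filter] at hK
          apply hT
          have h4 := hcard K hK.1
          rw [← hKT]
          exact ⟨hK.2, by omega⟩
        rw [h3, card_empty]
        exact Nat.zero_le _
  have hall : (S.filter (fun L => ¬ Disjoint L Z)).card ≤
      (S.filter (fun K => (K ∩ Z).card = 1)).card +
      (S.filter (fun K => 2 ≤ (K ∩ Z).card)).card := by
    have h3 : S.filter (fun L => ¬ Disjoint L Z) ⊆ S.filter (fun K => (K ∩ Z).card = 1) ∪
        S.filter (fun K => 2 ≤ (K ∩ Z).card) := by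
      intro K hK
      rw [mem_filter] at hK
      rw [mem_union, mem_filter, mem_filter]
      have hne : (K ∩ Z).card ≠ 0 := by
        intro h
        exact hK.2 (disjoint_iff_inter_eq_empty.2 (card_eq_zero.1 h))
      rcases Nat.lt_or_ge (K ∩ Z).card 2 with h | h
      · exact Or.inl ⟨hK.1, by omega⟩
      · exact Or.inr ⟨hK.1, h⟩
    exact (card_le_card h3).trans (card_union_le _ _)
  have hN := hall.trans (Nat.add_le_add h1 h2)
  have hR : ((S.filter (fun L => ¬ Disjoint L Z)).card : ℝ) ≤
      ((∑ z ∈ Z, kc G (nb G X z) (p + 2) +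
        (if Z.card ≤ 1 then 0 else 2 ^ Z.card * (X.card + 1) ^ (p + 1)) : ℕ) : ℝ) := by
    exact_mod_cast hN
  refine hR.trans (le_of_eq ?_)
  split_ifs <;> push_cast <;> ring

end Pool.GT7
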